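import Pool.Agent.H12.TC.Setup

/-!
# Rational universal torsors over del Pezzo surfaces of degree four
-/

namespace Pool.Agent.Results.MP_8b378c_ag.DelPezzoFourTorsors

open Polynomial
open Pool.Agent.H12.TC

/-- The variety `W` of the equations `ρ(e)(u - e v) = A(e)^2 - d(e) B(e)^2` (five degenerate fibres, over
the roots of a cubic `p` and of a quadratic polynomial `q`, the residue `d(e)` on the cubic being
the norm of the other residue, up to squares) is rational as soon as it contains a suitable line. -/
theorem result {k : Type*} [Field k] [Infinite k] (h2 : (2 : k) ≠ 0) {p q ρ d s : k[X]}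
    (hp : p.Monic) (hq : q.Monic) (hp3 : p.natDegree = 3) (hq2 : q.natDegree = 2)
    (hs : (p * q).Separable) (hρ : IsCoprime (p * q) ρ) (hd : IsCoprime (p * q) d)
    (hN : p ∣ C (q.resultant d) - d * s ^ 2) {A1 B1 A2 B2 : k[X]}
    (hL : ∀ x x' : k, ∃ u v : k, TorsorZero (p * q) ρ d u v (x • A1 + x' • A2)
      (x • B1 + x' • B2)) (hD : IsCoprime p (A1 * B2 - A2 * B1))
    {F : Type*} [Field F] [Algebra k F] {u v : F} {A B : F[X]}
    (hz : TorsorZero (p * q) ρ d u v A B)
    (hgen : IntermediateField.adjoin k ({u, v} ∪ Set.range A.coeff ∪ Set.range B.coeff) = ⊤)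
    (htr : Algebra.trdeg k F = 7) :
    ∃ t : Fin 7 → F, AlgebraicIndependent k t ∧
      IntermediateField.adjoin k (Set.range t) = ⊤ :=
  rational_of h2 hp hq hp3 hq2 hs hρ hd hN hL hD hz hgen htr

end Pool.Agent.Results.MP_8b378c_ag.DelPezzoFourTorsors
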