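import Pool.Agent.H17.UN.All

/-!
# A universal torsor with a rational point which is not stably rational
-/

namespace Pool.Agent.Results.MP_8b378c_ag.NonStablyRationalTorsor

open Pool.Agent.H17.UF

/-- Let `K = ℚ(x, y, z, t)` be the field of rational functions in four variables. There are a
smooth projective geometrically integral surface `X` over `K` which is rational over the algebraic
closure of `K`, and a universal torsor over `X` with a `K`-point, such that the universal torsor
is not stably rational over `K`. -/
theorem result : ∃ (K : Type) (_ : Field K) (_ : Algebra ℚ K) (x y z t : K),
    AlgebraicIndependent ℚ ![x, y, z, t] ∧ IntermediateField.adjoin ℚ {x, y, z, t} = ⊤ ∧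
    NegatedQ2 K :=
  Pool.Agent.H17.UN.final_uf

end Pool.Agent.Results.MP_8b378c_ag.NonStablyRationalTorsor
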